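import Pool.Agent.H83.W.FS

set_option autoImplicit false

open MeasureTheory ProbabilityTheory Filter Topology Finset

namespace Pool.Agent.H24.Keep.ComponentPrediction

open Pool.Agent.H89.MT (I1 X QuasiGeneric)

/-- The shift on `X = [-1,1]^ℤ`. -/
def S (x : X) : X := fun t => x (t + 1)

/-- No two elements of `G` differ exactly by the sign at one place of `I`. -/
def IsCode {m : ℕ} (I : Finset (Fin m)) (G : Set (Fin m → ℝ)) : Prop :=
  ∀ v ∈ G, ∀ w ∈ G, ∀ i ∈ I, ¬ (v i ≠ 0 ∧ w i = -v i ∧ ∀ j, j ≠ i → w j = v j)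

/-- `κ_x`: the conditional measures of `κ` given the invariant sets, that is, the ergodic
components of `κ`. -/
noncomputable def comp (κ : Measure X) [IsProbabilityMeasure κ] (x : X) : Measure X :=
  condExpKernel κ (MeasurableSpace.invariants S) x

/-- Furstenberg systems of the Liouville function and of the Möbius function: in all but a
proportion `ρ` of the ergodic components, the words `(y_1, …, y_m)` are not contained in a code, up
to an error of at most `ρ ^ 4 |I| / (10 ^ 17 m)`. For example, no function of the coordinates `y_j`,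
`0 < |j| ≤ k`, predicts `y_0`, when it is not zero, with an error less than `c / k`. -/
theorem result (u : ℕ → I1)
    (hu : (∀ n, 0 < n → (u n : ℝ) = (-1) ^ ArithmeticFunction.cardFactors n) ∨
      ∀ n, 0 < n → (u n : ℝ) = ArithmeticFunction.moebius n)
    (κ : Measure X) [IsProbabilityMeasure κ] (hκ : QuasiGeneric u κ)
    (m : ℕ) (I : Finset (Fin m)) (hI : I.Nonempty) (ρ : ℝ) (hρ : 0 < ρ) :
    κ.real {x | ∃ G : Set (Fin m → ℝ), IsCode I G ∧
      (comp κ x).real {y | (fun i : Fin m => (y ((i : ℤ) + 1) : ℝ)) ∉ G} ≤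
        ρ ^ 4 * #I / (10 ^ 17 * m)} ≤ ρ := by
  rcases hu with hu | hu
  · exact Pool.Agent.H83.W.fs (z := true) (fun n hn => by
      rw [hu n hn]
      simp [Pool.Agent.H83.V.Hand.f]) κ hκ m I hI ρ hρ
  · exact Pool.Agent.H83.W.fs (z := false) (fun n hn => by
      rw [hu n hn]
      simp [Pool.Agent.H83.V.Hand.f]) κ hκ m I hI ρ hρ

end Pool.Agent.H24.Keep.ComponentPrediction
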