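import Mathlib
import Pool.Agent.H39.VQ.Final

/-!
# Vinogradov's mean value at the critical exponent: loss `exp (C (log log N) ^ 2)` for cubes

For every `k ≥ 3` and `K = k (k + 1) / 2` there is a constant `C` with
`J_{K,k}(N) ≤ N ^ K * exp (C (log N) ^ ((k - 3) / (k - 2)) (log log N) ^ 2)` for all `N ≥ 3`;
in particular `J_{6,3}(N) ≤ N ^ 6 * exp (C (log log N) ^ 2)`.

The proof is a `p`-adic high-low method. All objects are functions on a finite abelian group with
an action of integer polynomials by translations; the definitions are in
`Pool.Agent.H11.CV.Defs` and `Pool.Agent.H39.VQ.Defs`, the statements of all steps in the files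
`Targets` and the assembly in the files `Final` of the same folders.

* The high-low method bounds the level sets of the sum by the sets `Om` where the square function
  grows for the first time at the scale `p ^ (n - j)`. The high part of the square function lives on
  the cone over the curve of degree `k - 1`, and on `Om` it is coherent: its absolute value is at
  least `1 / (3 n)` times the sum of the absolute values of its parts, up to a constant.
* For `k = 3` this is the light cone. The square function estimate `V_SQ` in `L ^ 4` holds for
  planks of level `k` with the constant `1 + 2 k`: the off-diagonal parts of different levels are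
  exactly orthogonal, the off-diagonal parts of one level overlap at most twice, and modulo `p`
  the `L ^ 4` norm of a node is an identity.
* `V_WE` bounds the `L ^ 2` norm of the square function by local masses, local orthogonality
  (`V_LO`, `V_MB`) bounds the local masses by the counts at a finer level, and the iteration
  `V_IT` along the levels `k - (F_{m+2} - 1)` (Fibonacci numbers) telescopes twice. This gives the
  estimate `V_C8` for coherent sums of plank functions at the exponent 8, with `O(log k)` steps.
* Interpolated with the moment bounds for the pruned functions it gives the recursion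
  `D ≤ D / 2 + exp (C (log (n + 2)) ^ 2) D ^ (4 / 5)` for the constant of the level set estimate of
  degree three (`V_RC`), hence decoupling in degree three with the loss `exp (C (log n) ^ 2)` at the
  scale `p ^ n`. The higher degrees follow by the induction on the degree of
  `Pool.Agent.H11.CV`.
-/

set_option autoImplicit false

open Finset

namespace Pool.Agent.Results.MP_e21eee_nt.CriticalQuasiLog

/-- The pairs `(x, y)` of `s`-tuples in `[1, N]` whose `j`-th power sums agree for `j = 1, …, k`;
their number is `J_{s,k}(N)`. -/
def solutions (s k N : ℕ) : Finset ((Fin s → ℕ) × (Fin s → ℕ)) :=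
  ((Fintype.piFinset fun _ : Fin s => Finset.Icc 1 N) ×ˢ
    (Fintype.piFinset fun _ : Fin s => Finset.Icc 1 N)).filter
    (fun p => ∀ j : Fin k, ∑ i, p.1 i ^ (j.val + 1) = ∑ i, p.2 i ^ (j.val + 1))

/-- `J_{K,k}(N) ≤ N ^ K exp (C (log N) ^ ((k - 3) / (k - 2)) (log log N) ^ 2)` for
`K = k (k + 1) / 2`, `k ≥ 3`, `N ≥ 3`. -/
theorem result : ∀ k : ℕ, 3 ≤ k → ∃ C : ℝ, ∀ N : ℕ, 3 ≤ N →
    ((solutions (k * (k + 1) / 2) k N).card : ℝ) ≤
      (N : ℝ) ^ (k * (k + 1) / 2) *
        Real.exp (C * Real.log N ^ (((k : ℝ) - 3) / ((k : ℝ) - 2)) *
          Real.log (Real.log N) ^ 2) :=
  Pool.Agent.H39.VQ.v_FN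

end Pool.Agent.Results.MP_e21eee_nt.CriticalQuasiLog
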